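import Pool.Agent.W289.CG.Core3

/-!
# Class groups of large rank with local conditions: the congruences

The numbers `s`, `t` of `W289/CG/Core3` can be chosen such that moreover `P ∣ s`, `P ∣ t - 1` and `t - s ≡ W` modulo `W ^ 2`.
-/

set_option autoImplicit false

namespace Pool.Agent.Q84.CGL

open Polynomial NumberField nonZeroDivisors
open Pool.Agent.W289.CG

/-- the part of `M` prime to `P` -/
theorem prime_part (P : ℤ) (M : ℕ) (hM : 0 < M) : ∃ B : ℕ, 0 < B ∧ IsCoprime (B : ℤ) P ∧ (B : ℤ) ∣ M ∧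
    ∀ x : ℤ, x ∣ (M : ℤ) → IsCoprime x P → x ∣ (B : ℤ) := by
  induction M using Nat.strong_induction_on with
  | _ M ih =>
    by_cases hg : Int.gcd M P = 1
    · exact ⟨M, hM, Int.isCoprime_iff_gcd_eq_one.2 hg, dvd_rfl, fun x hx _ => hx⟩
    · obtain ⟨g, hgdef⟩ : ∃ g, g = Int.gcd M P := ⟨_, rfl⟩
      rw [← hgdef] at hg
      have h1 : ((g : ℕ) : ℤ) ∣ (M : ℤ) := by rw [hgdef]; exact Int.gcd_dvd_left _ _
      have h2 : ((g : ℕ) : ℤ) ∣ P := by rw [hgdef]; exact Int.gcd_dvd_right _ _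
      obtain ⟨M', hM'⟩ : g ∣ M := by exact_mod_cast h1
      have hg0 : g ≠ 0 := by
        rintro h0
        rw [h0, zero_mul] at hM'
        omega
      have hM'0 : 0 < M' := Nat.pos_of_ne_zero (by
        rintro h0
        rw [h0, mul_zero] at hM'
        omega)
      have hlt : M' < M := by
        rw [hM']
        exact (Nat.lt_mul_iff_one_lt_left hM'0).2 (by omega)
      obtain ⟨B, hB0, hB2, hB1, hB3⟩ := ih M' hlt hM'0
      refine ⟨B, hB0, hB2, hB1.trans ⟨g, by rw [hM']; push_cast; ring⟩, fun x hx hxP => ?_⟩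
      have h3 : x ∣ ((g : ℕ) : ℤ) * (M' : ℤ) := by
        have : ((g : ℕ) : ℤ) * (M' : ℤ) = (M : ℤ) := by rw [hM']; push_cast; ring
        rw [this]
        exact hx
      exact hB3 x ((hxP.of_isCoprime_of_dvd_right h2).dvd_of_dvd_mul_left h3) hxP

theorem not_dvd_coprime {q : ℕ} (hq : q.Prime) {P : ℤ} (h : ¬ (q : ℤ) ∣ P) : IsCoprime (q : ℤ) P :=
  (coprime_of_prime hq h).symm

/-- the congruence conditions, with local conditions at `P` and `W` -/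
theorem exists_good' (hW : TaskWeil) (hR : TaskRoot) {n k : ℕ} (D : Dat n k) (m N : ℕ)
    (hn : 1 ≤ n) (hk : 1 ≤ k) (hm : 2 ≤ m) (P W : ℤ) (hP : 0 < P) (hW0 : 0 < W)
    (hPZ : IsCoprime P (D.c * |D.bad|)) (hWZ : IsCoprime W (D.c * |D.bad|)) (hPW : IsCoprime P W) :
    ∃ (q₀ q₁ : ℕ) (B s₀ t₀ : ℤ), 0 < B ∧ IsCoprime B P ∧ IsCoprime s₀ B ∧
      ∀ s t : ℤ, B ∣ s - s₀ → B ∣ t - t₀ →
        Good D m N q₀ q₁ s t ∧ W ^ 2 ∣ s - 1 ∧ W ^ 2 ∣ t - (1 + W) := by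
  classical
  obtain ⟨Z, hZ⟩ : ∃ Z, Z = D.c * |D.bad| := ⟨_, rfl⟩
  rw [← hZ] at hPZ hWZ
  have hZ0 : 0 < Z := by rw [hZ]; exact mul_pos D.hc (abs_pos.2 (bad_ne D))
  obtain ⟨Y, hY⟩ : ∃ Y, Y = Z * (P * W ^ 2) := ⟨_, rfl⟩
  have hY0 : 0 < Y := by rw [hY]; positivity
  obtain ⟨q₀, hq₀N, hq₀⟩ := Nat.exists_infinite_primes (N + Y.natAbs + m + 1)
  have : NeZero (4 * m) := ⟨by omega⟩
  obtain ⟨q₁, hq₁N, hq₁, hq₁m⟩ := Nat.forall_exists_prime_gt_and_eq_mod (q := 4 * m) (a := -1)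
    (isUnit_one.neg) (q₀ + Y.natAbs + m + 4)
  have hd : ∀ q : ℕ, Y.natAbs < q → ¬ (q : ℤ) ∣ Y := fun q hq => not_dvd_of_lt hY0.ne' hq
  have hZY : Z ∣ Y := by rw [hY]; exact Dvd.intro _ rfl
  have hPY : P ∣ Y := by rw [hY]; exact (Dvd.intro _ rfl : P ∣ P * W ^ 2).mul_left _
  have hc : ∀ q : ℕ, Y.natAbs < q → ¬ (q : ℤ) ∣ D.c := fun q hq h =>
    hd q hq (h.trans ((by rw [hZ]; exact Dvd.intro _ rfl : D.c ∣ Z).trans hZY))
  have hbad : ∀ q : ℕ, Y.natAbs < q → ¬ (q : ℤ) ∣ D.bad := fun q hq h =>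
    hd q hq (((dvd_abs _ _).2 h).trans ((by rw [hZ]; exact Dvd.intro_left _ rfl : |D.bad| ∣ Z).trans hZY))
  have hqP : ∀ q : ℕ, Y.natAbs < q → ¬ (q : ℤ) ∣ P := fun q hq h => hd q hq (h.trans hPY)
  -- the moduli `P`, `W ^ 2` and `Z`
  obtain ⟨sE, tE, c1, c2, c3, c4, c5⟩ := crt2 (M := P) (M' := W ^ 2) (s := 1) (t := 1) (s' := 1) (t' := 1 + W)
    (hPW.pow_right) isCoprime_one_left isCoprime_one_left
  obtain ⟨sa, ta, d1, d2, d3, d4, d5⟩ := crt2 (M := Z) (M' := P * W ^ 2) (s := 1) (t := 1) (s' := sE) (t' := tE)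
    (IsCoprime.mul_right hPZ.symm hWZ.symm.pow_right) isCoprime_one_left c5
  rw [← hY] at d5
  have dP1 : P ∣ sa - 1 := by
    have := ((Dvd.intro _ rfl : P ∣ P * W ^ 2).trans d3).add c1
    simpa using this
  have dP2 : P ∣ ta - 1 := by
    have := ((Dvd.intro _ rfl : P ∣ P * W ^ 2).trans d4).add c2
    simpa using this
  have dW1 : W ^ 2 ∣ sa - 1 := by
    have := ((Dvd.intro_left _ rfl : W ^ 2 ∣ P * W ^ 2).trans d3).add c3
    simpa using this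
  have dW2 : W ^ 2 ∣ ta - (1 + W) := by
    have := ((Dvd.intro_left _ rfl : W ^ 2 ∣ P * W ^ 2).trans d4).add c4
    simpa using this
  -- the moduli `q₀ ^ 2` and `q₁`
  obtain ⟨s₁, t₁, a1, a2, a3, a4, a5⟩ := crt2 (M := Y) (M' := (q₀ : ℤ) ^ 2) (s := sa) (t := ta)
    (s' := 1) (t' := 1 + q₀) ((coprime_of_prime hq₀ (hd q₀ (by omega))).pow_right)
    d5 isCoprime_one_left
  have hq01 : ¬ (q₁ : ℤ) ∣ Y * (q₀ : ℤ) ^ 2 := by
    have hp : Prime (q₁ : ℤ) := Nat.prime_iff_prime_int.1 hq₁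
    intro h
    rcases hp.dvd_or_dvd h with h | h
    · exact hd q₁ (by omega) h
    · have h1 := hp.dvd_of_dvd_pow h
      have h2 : q₁ ∣ q₀ := by exact_mod_cast h1
      have := Nat.le_of_dvd hq₀.pos h2
      omega
  obtain ⟨s₂, t₂, b1, b2, b3, b4, b5⟩ := crt2 (M := Y * (q₀ : ℤ) ^ 2) (M' := (q₁ : ℤ)) (s := s₁)
    (t := t₁) (s' := 1) (t' := 0) (coprime_of_prime hq₁ hq01) a5 isCoprime_one_left
  -- the tests
  obtain ⟨T, hT⟩ : ∃ T : List (ℕ × (Fin n ⊕ Fin k → ℕ)), T =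
    ((m.primeFactors ×ˢ Fintype.piFinset (fun _ : Fin n ⊕ Fin k => Finset.range m)).filter
      (fun τ => ∃ p, ¬ τ.1 ∣ τ.2 p)).toList := ⟨_, rfl⟩
  have hTm : ∀ τ, τ ∈ T ↔ (τ.1 ∈ m.primeFactors ∧ ∀ p, τ.2 p < m) ∧ ∃ p, ¬ τ.1 ∣ τ.2 p := by
    intro τ
    simp [hT]
  obtain ⟨M, s₀, t₀, hM, hMM, hcop, hs, ht, hall⟩ := crt_tests (PT D m) PT.congr T
    (by
      intro τ hτ Q
      rw [hTm] at hτ
      exact exists_test hW hR D m hn hk hm τ (Nat.prime_of_mem_primeFactors hτ.1.1)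
        (Nat.dvd_of_mem_primeFactors hτ.1.1) hτ.2 Q)
    (Y * (q₀ : ℤ) ^ 2 * q₁) s₂ t₂
    (by
      have h1 : (0 : ℤ) < q₀ := by exact_mod_cast hq₀.pos
      have h2 : (0 : ℤ) < q₁ := by exact_mod_cast hq₁.pos
      positivity) b5
  -- the congruences of `s₀` and `t₀`
  have f1 : Y * (q₀ : ℤ) ^ 2 ∣ s₀ - s₁ := by
    have := ((Dvd.intro _ rfl : Y * (q₀ : ℤ) ^ 2 ∣ Y * (q₀ : ℤ) ^ 2 * q₁).trans hs).add b1
    simpa using this
  have f2 : Y * (q₀ : ℤ) ^ 2 ∣ t₀ - t₁ := by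
    have := ((Dvd.intro _ rfl : Y * (q₀ : ℤ) ^ 2 ∣ Y * (q₀ : ℤ) ^ 2 * q₁).trans ht).add b2
    simpa using this
  have g0 : Y ∣ s₀ - sa := by
    have := ((Dvd.intro _ rfl : Y ∣ Y * (q₀ : ℤ) ^ 2).trans f1).add a1
    simpa using this
  have g0' : Y ∣ t₀ - ta := by
    have := ((Dvd.intro _ rfl : Y ∣ Y * (q₀ : ℤ) ^ 2).trans f2).add a2
    simpa using this
  have g1 : Z ∣ s₀ - 1 := by
    have := (hZY.trans g0).add d1
    simpa using this
  have g2 : Z ∣ t₀ - 1 := by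
    have := (hZY.trans g0').add d2
    simpa using this
  have gP1 : P ∣ s₀ - 1 := by
    have := (hPY.trans g0).add dP1
    simpa using this
  have gP2 : P ∣ t₀ - 1 := by
    have := (hPY.trans g0').add dP2
    simpa using this
  have hWY : W ^ 2 ∣ Y := by rw [hY]; exact (Dvd.intro_left _ rfl : W ^ 2 ∣ P * W ^ 2).mul_left _
  have gW1 : W ^ 2 ∣ s₀ - 1 := by
    have := (hWY.trans g0).add dW1
    simpa using this
  have gW2 : W ^ 2 ∣ t₀ - (1 + W) := by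
    have := (hWY.trans g0').add dW2
    simpa using this
  have g3 : (q₀ : ℤ) ^ 2 ∣ s₀ - 1 := by
    have := ((Dvd.intro_left _ rfl : (q₀ : ℤ) ^ 2 ∣ Y * (q₀ : ℤ) ^ 2).trans f1).add a3
    simpa using this
  have g4 : (q₀ : ℤ) ^ 2 ∣ t₀ - (1 + q₀) := by
    have := ((Dvd.intro_left _ rfl : (q₀ : ℤ) ^ 2 ∣ Y * (q₀ : ℤ) ^ 2).trans f2).add a4
    simpa using this
  have g5 : (q₁ : ℤ) ∣ s₀ - 1 := by
    have := ((Dvd.intro_left _ rfl : (q₁ : ℤ) ∣ Y * (q₀ : ℤ) ^ 2 * q₁).trans hs).add b3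
    simpa using this
  have g6 : (q₁ : ℤ) ∣ t₀ := by
    have := ((Dvd.intro_left _ rfl : (q₁ : ℤ) ∣ Y * (q₀ : ℤ) ^ 2 * q₁).trans ht).add b4
    simpa using this
  -- the part of `M` prime to `P`
  obtain ⟨B, hB0, hBP, hBM, hBx⟩ := prime_part P M.toNat (by omega)
  have hMt : ((M.toNat : ℕ) : ℤ) = M := Int.toNat_of_nonneg hM.le
  rw [hMt] at hBM hBx
  have hYM : Y ∣ M := Dvd.dvd.trans ⟨(q₀ : ℤ) ^ 2 * q₁, by ring⟩ hMM
  have xZ : Z ∣ (B : ℤ) := hBx Z (hZY.trans hYM) hPZ.symm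
  have xW : W ^ 2 ∣ (B : ℤ) := hBx _ (hWY.trans hYM) hPW.symm.pow_left
  have xq₀ : (q₀ : ℤ) ^ 2 ∣ (B : ℤ) := hBx _
    (Dvd.dvd.trans ⟨Y * q₁, by ring⟩ hMM)
    (not_dvd_coprime hq₀ (hqP q₀ (by omega))).pow_left
  have xq₁ : (q₁ : ℤ) ∣ (B : ℤ) := hBx _ ((Dvd.intro_left _ rfl : (q₁ : ℤ) ∣ Y * (q₀ : ℤ) ^ 2 * q₁).trans hMM)
    (not_dvd_coprime hq₁ (hqP q₁ (by omega)))
  refine ⟨q₀, q₁, B, s₀, t₀, by exact_mod_cast hB0, hBP, hcop.of_isCoprime_of_dvd_right hBM, fun s t hs' ht' => ?_⟩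
  have k1 : Z ∣ s - 1 := by
    have := (xZ.trans hs').add g1
    simpa using this
  have k2 : Z ∣ t - 1 := by
    have := (xZ.trans ht').add g2
    simpa using this
  have k3 : (q₀ : ℤ) ^ 2 ∣ s - 1 := by
    have := (xq₀.trans hs').add g3
    simpa using this
  have k4 : (q₀ : ℤ) ^ 2 ∣ t - (1 + q₀) := by
    have := (xq₀.trans ht').add g4
    simpa using this
  have k5 : (q₁ : ℤ) ∣ s - 1 := by
    have := (xq₁.trans hs').add g5
    simpa using this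
  have k6 : (q₁ : ℤ) ∣ t := by
    have := (xq₁.trans ht').add g6
    simpa using this
  have k7 : W ^ 2 ∣ s - 1 := by
    have := (xW.trans hs').add gW1
    simpa using this
  have k8 : W ^ 2 ∣ t - (1 + W) := by
    have := (xW.trans ht').add gW2
    simpa using this
  have hZc : D.c ∣ Z := by rw [hZ]; exact Dvd.intro _ rfl
  have hZb : D.bad ∣ Z := by rw [hZ]; exact ((dvd_abs _ _).2 dvd_rfl).mul_left _
  refine ⟨⟨hq₀, by omega, hc _ (by omega), ?_, Dvd.dvd.trans ⟨(q₀ : ℤ), by ring⟩ k3, ?_, hq₁, ?_,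
    by omega, by omega, hc _ (by omega), hbad _ (by omega), k5, k6, hZc.trans k1, hZc.trans k2,
    hZb.trans k1, hZb.trans k2, ?_⟩, k7, k8⟩
  · intro h
    have := Nat.le_of_dvd (by omega) h
    omega
  · have := k4.sub k3
    have h : t - s - q₀ = t - (1 + q₀) - (s - 1) := by ring
    rw [h]; exact this
  · have h1 : ((q₁ + 1 : ℕ) : ZMod (4 * m)) = 0 := by
      push_cast
      rw [hq₁m]
      ring
    exact (ZMod.natCast_eq_zero_iff _ _).1 h1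
  · intro ℓ hℓ hℓm h hlt hex
    have hle : ℓ ≤ m := Nat.le_of_dvd (by omega) hℓm
    obtain ⟨q, hq, hqM, hPT⟩ := hall (ℓ, h) ((hTm _).2 ⟨⟨Nat.mem_primeFactors.2 ⟨hℓ, hℓm,
      by omega⟩, fun p => (hlt p).trans_le hle⟩, hex⟩)
    have hqP' : ¬ (q : ℤ) ∣ P := by
      intro hqP'
      obtain ⟨x, hx, -⟩ := hPT
      apply hx.hL
      have e1 : (q : ℤ) ∣ t₀ - s₀ := by
        have := (hqP'.trans gP2).sub (hqP'.trans gP1)
        have e : t₀ - s₀ = t₀ - 1 - (s₀ - 1) := by ring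
        rw [e]; exact this
      exact e1.trans (sub_dvd_pow_sub_pow t₀ s₀ m)
    have hqB : (q : ℤ) ∣ (B : ℤ) := hBx _ hqM (not_dvd_coprime hq hqP')
    exact ⟨q, hq, hPT.congr _ _ _ _ _ _ (hqB.trans hs') (hqB.trans ht')⟩

/-- the exact power of `q` in `t ^ m - s ^ m` -/
theorem exact_power' {q m : ℕ} (hq : q.Prime) (hqm : ¬ q ∣ m) {s t w : ℤ}
    (hs : (q : ℤ) ∣ s - 1) (ht : t - s = q * w) (hw : ¬ (q : ℤ) ∣ w) :
    (q : ℤ) ∣ t ^ m - s ^ m ∧ ¬ (q : ℤ) ^ 2 ∣ t ^ m - s ^ m := by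
  have hqp : Prime (q : ℤ) := Nat.prime_iff_prime_int.1 hq
  have h2 := geom_sum₂_mul t s m
  have h3 : ¬ (q : ℤ) ∣ ∑ i ∈ Finset.range m, t ^ i * s ^ (m - 1 - i) := by
    rw [← zmod_iff]
    push_cast
    have hs1 : (s : ZMod q) = 1 := by
      have := (zmod_iff (q := q) _).2 hs
      push_cast at this
      exact sub_eq_zero.1 this
    have ht1 : (t : ZMod q) = 1 := by
      have h4 : ((t - s : ℤ) : ZMod q) = 0 := by
        rw [zmod_iff, ht]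
        exact Dvd.intro _ rfl
      push_cast at h4
      rw [sub_eq_zero.1 h4, hs1]
    rw [hs1, ht1]
    simp only [one_pow, mul_one, Finset.sum_const, Finset.card_range, nsmul_eq_mul]
    rw [ZMod.natCast_eq_zero_iff]
    exact hqm
  refine ⟨?_, ?_⟩
  · rw [← h2, ht]
    exact Dvd.intro_left (Finset.sum (Finset.range m) (fun i => t ^ i * s ^ (m - 1 - i)) * w) (by ring)
  · intro h
    rw [← h2, ht] at h
    have h4 : (q : ℤ) ∣ (∑ i ∈ Finset.range m, t ^ i * s ^ (m - 1 - i)) * w := by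
      obtain ⟨v, hv⟩ := h
      refine ⟨v, ?_⟩
      have hq0 : (q : ℤ) ≠ 0 := hqp.ne_zero
      apply mul_left_cancel₀ hq0
      linear_combination hv
    rcases hqp.dvd_or_dvd h4 with h5 | h5
    · exact h3 h5
    · exact hw h5

/-- differences of the roots divide the derivative -/
theorem sub_dvd_der {n : ℕ} (a : Fin n → ℤ) {i j : Fin n} (hij : i ≠ j) :
    a i - a j ∣ (derivative (pA a)).eval (a i) := by
  have h : pA a = Lagrange.nodal Finset.univ a := rfl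
  rw [h, Lagrange.eval_nodal_derivative_eval_node_eq (Finset.mem_univ i), Lagrange.eval_nodal]
  exact Finset.dvd_prod_of_mem (fun l => a i - a l) (Finset.mem_erase.2 ⟨hij.symm, Finset.mem_univ j⟩)

end Pool.Agent.Q84.CGL
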