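import Pool.Agent.Q290.AB.Val
import Pool.Agent.W289.CG.Core3

/-!
# Total ramification
-/

set_option autoImplicit false

namespace Pool.Agent.Q84.CGL

open Polynomial NumberField IsDedekindDomain

/-- if `q` divides `L` exactly once and does not divide `S`, then `q` is totally ramified in the field generated by a root of
`L ∏ (X - a i) + S` -/
theorem tot_ram {K : Type} [Field K] [NumberField K] {n : ℕ} (hfr : Module.finrank ℚ K = n)
    (a : Fin n → ℤ) (L S : ℤ) {q : ℕ} (hq : q.Prime) (hqL : (q : ℤ) ∣ L) (hqL2 : ¬ (q : ℤ) ^ 2 ∣ L)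
    (hqS : ¬ (q : ℤ) ∣ S) {θ : K} (hθ : (L : K) * ∏ i, (θ - (a i : K)) + (S : K) = 0) :
    ∃ v : HeightOneSpectrum (𝓞 K), v.asIdeal ^ n = Ideal.span {((q : ℕ) : 𝓞 K)} := by
  obtain ⟨v, hv⟩ := Pool.Agent.Q290.AB.exists_place K hq
  have hvZ : ∀ z : ℤ, ((z : ℤ) : 𝓞 K) ∈ v.asIdeal ↔ (q : ℤ) ∣ z := by
    intro z
    rw [Int.natCast_dvd, ← hv]
    rcases Int.natAbs_eq z with h | h
    · conv_lhs => rw [h]
      rw [Int.cast_natCast]
    · conv_lhs => rw [h]
      rw [Int.cast_neg, Int.cast_natCast, neg_mem_iff]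
  have hcast : ∀ z : ℤ, algebraMap (𝓞 K) K ((z : ℤ) : 𝓞 K) = (z : K) := fun z => map_intCast _ z
  have hle : ∀ z : ℤ, v.valuation K (z : K) ≤ 1 := fun z => by
    rw [← hcast]
    exact v.valuation_le_one _
  have heq : ∀ z : ℤ, ¬ (q : ℤ) ∣ z → v.valuation K (z : K) = 1 := by
    intro z hz
    rw [← hcast]
    exact (v.valuation_eq_one_iff_notMem).2 (fun h => hz ((hvZ z).1 h))
  obtain ⟨L', hL'⟩ := hqL
  have hqL' : ¬ (q : ℤ) ∣ L' := by
    intro h
    exact hqL2 (by rw [hL', pow_two]; exact mul_dvd_mul_left _ h)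
  have hVq : v.valuation K ((q : ℕ) : K) < 1 := by
    have h1 := (v.valuation_lt_one_iff_mem (K := K) ((q : ℕ) : 𝓞 K)).2 ((hv q).2 dvd_rfl)
    simpa using h1
  have hVL : v.valuation K (L : K) = v.valuation K ((q : ℕ) : K) := by
    rw [hL']
    push_cast
    rw [map_mul, heq L' hqL', mul_one]
  have h2 : (L : K) * ∏ i, (θ - (a i : K)) = -(S : K) := by linear_combination hθ
  have h3 := congrArg (v.valuation K) h2
  rw [map_mul, Valuation.map_neg, heq S hqS, hVL] at h3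
  have hVθ : 1 < v.valuation K θ := by
    by_contra hcon
    push Not at hcon
    have h1 : v.valuation K (∏ i, (θ - (a i : K))) ≤ 1 := by
      rw [map_prod]
      exact Finset.prod_le_one' fun i _ => (Valuation.map_sub _ _ _).trans (max_le hcon (hle _))
    have h4 : v.valuation K ((q : ℕ) : K) * v.valuation K (∏ i, (θ - (a i : K))) < 1 :=
      mul_lt_one_of_lt_of_le hVq h1
    exact absurd h3 h4.ne
  have hVθi : ∀ i, v.valuation K (θ - (a i : K)) = v.valuation K θ := fun i =>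
    Valuation.map_sub_eq_of_lt_left _ ((hle (a i)).trans_lt hVθ)
  rw [map_prod, Finset.prod_congr rfl fun i _ => hVθi i, Finset.prod_const, Finset.card_univ, Fintype.card_fin] at h3
  have hθ0 : v.valuation K θ ≠ 0 := (zero_lt_one.trans hVθ).ne'
  have hVqn : v.valuation K ((q : ℕ) : K) = ((v.valuation K θ)⁻¹) ^ n := by
    rw [inv_pow]
    exact eq_inv_of_mul_eq_one_left h3
  have hinv : (v.valuation K θ)⁻¹ ≤ WithZero.exp (-1 : ℤ) := by
    have h5 : (v.valuation K θ)⁻¹ ≠ 0 := inv_ne_zero hθ0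
    have h6 : (v.valuation K θ)⁻¹ < 1 := inv_lt_one_of_one_lt₀ hVθ
    rw [← WithZero.exp_log h5] at h6 ⊢
    rw [← WithZero.exp_zero, WithZero.exp_lt_exp] at h6
    rw [WithZero.exp_le_exp]
    omega
  have hmem : ((q : ℕ) : 𝓞 K) ∈ v.asIdeal ^ n := by
    rw [← v.intValuation_le_pow_iff_mem]
    have h7 : v.intValuation ((q : ℕ) : 𝓞 K) = v.valuation K ((q : ℕ) : K) := by
      rw [← map_natCast (algebraMap (𝓞 K) K) q, HeightOneSpectrum.valuation_of_algebraMap]
    rw [h7, hVqn]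
    refine (pow_le_pow_left' hinv n).trans (le_of_eq ?_)
    rw [← WithZero.exp_nsmul]
    congr 1
    simp
  have hdvd : v.asIdeal ^ n ∣ Ideal.span {((q : ℕ) : 𝓞 K)} := Ideal.dvd_span_singleton.2 hmem
  obtain ⟨J, hJ⟩ := hdvd
  have hnorm : Ideal.absNorm (Ideal.span {((q : ℕ) : 𝓞 K)}) = q ^ n := by
    rw [Ideal.absNorm_span_singleton]
    have h8 : Algebra.norm ℤ ((q : ℕ) : 𝓞 K) = (q : ℤ) ^ Module.finrank ℤ (𝓞 K) := by
      have := Algebra.norm_algebraMap (S := 𝓞 K) (q : ℤ)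
      simpa using this
    rw [h8, RingOfIntegers.rank, hfr, Int.natAbs_pow, Int.natAbs_natCast]
  have hNv : q ≤ Ideal.absNorm v.asIdeal := by
    have h9 : q ∣ Ideal.absNorm v.asIdeal := (hv _).1 (Ideal.absNorm_mem v.asIdeal)
    refine Nat.le_of_dvd (Nat.pos_of_ne_zero fun h0 => ?_) h9
    rw [Ideal.absNorm_eq_zero_iff] at h0
    exact v.ne_bot h0
  have hJ1 : Ideal.absNorm J = 1 := by
    have h10 := congrArg Ideal.absNorm hJ
    rw [map_mul, map_pow, hnorm] at h10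
    have h11 : q ^ n ≤ Ideal.absNorm v.asIdeal ^ n := Nat.pow_le_pow_left hNv n
    have h12 : 0 < q ^ n := pow_pos hq.pos n
    have h13 : Ideal.absNorm J ≤ 1 := by
      by_contra hcon
      push Not at hcon
      have h14 : Ideal.absNorm v.asIdeal ^ n * 2 ≤ Ideal.absNorm v.asIdeal ^ n * Ideal.absNorm J :=
        Nat.mul_le_mul_left _ hcon
      omega
    have h15 : Ideal.absNorm J ≠ 0 := by
      intro h0
      rw [h0, mul_zero] at h10
      omega
    omega
  rw [Ideal.absNorm_eq_one_iff] at hJ1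
  rw [hJ1, Ideal.mul_top] at hJ
  exact ⟨v, hJ.symm⟩

end Pool.Agent.Q84.CGL
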