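import Pool.Agent.Q84.CGL.L1
import Pool.Agent.Q84.CGL.TR

/-!
# Class groups of large rank with local conditions: the fields
-/

set_option autoImplicit false

namespace Pool.Agent.Q84.CGL

open Polynomial NumberField nonZeroDivisors IsDedekindDomain
open Pool.Agent.W289.CG

/-- the choice of `s` and `t` -/
theorem exists_st (hSt : TaskSt) {B P s₀ t₀ : ℤ} (hB : 0 < B) (hP : 0 < P) (hBP : IsCoprime B P)
    (hs₀ : IsCoprime s₀ B) {x y : ℝ} (hx : 1 ≤ x) (hxy : x < y) :
    ∃ s t : ℤ, B ∣ s - s₀ ∧ B ∣ t - t₀ ∧ P ∣ s ∧ P ∣ t - 1 ∧ 0 < s ∧ IsCoprime s t ∧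
      x * s < t ∧ (t : ℝ) < y * s := by
  obtain ⟨u, v, huv⟩ := hBP
  have hvB : IsCoprime v B := ⟨P, u, by linear_combination huv⟩
  obtain ⟨s₁, t₁, e1, e2, e3, e4, e5⟩ := crt2 (M := B) (M' := P) (s := v * s₀) (t := t₀) (s' := 1) (t' := 1)
    ⟨u, v, huv⟩ (hvB.mul_left hs₀) isCoprime_one_left
  have hPr : (1 : ℝ) ≤ P := by exact_mod_cast hP
  have hPr0 : (0 : ℝ) < P := by linarith
  obtain ⟨s', t, hs, ht, hs0, hst, hxs, hys⟩ := hSt (B * P) s₁ t₁ (x * P) (y * P) (mul_pos hB hP) e5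
    (by nlinarith) (mul_lt_mul_of_pos_right hxy hPr0) 0
  have hBt : B ∣ t - t₀ := by
    have := ((Dvd.intro _ rfl : B ∣ B * P).trans ht).add e2
    simpa using this
  have hPt : P ∣ t - 1 := by
    have := ((Dvd.intro_left _ rfl : P ∣ B * P).trans ht).add e4
    simpa using this
  have hBs : B ∣ s' - v * s₀ := by
    have := ((Dvd.intro _ rfl : B ∣ B * P).trans hs).add e1
    simpa using this
  refine ⟨P * s', t, ?_, hBt, Dvd.intro _ rfl, hPt, mul_pos hP hs0, ?_, ?_, ?_⟩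
  · obtain ⟨w, hw⟩ := hBs
    refine ⟨P * w - u * s₀, ?_⟩
    linear_combination P * hw + s₀ * huv
  · refine IsCoprime.mul_left ?_ hst
    obtain ⟨w, hw⟩ := hPt
    exact ⟨-w, 1, by linear_combination hw⟩
  · push_cast
    have e : x * (P * (s' : ℝ)) = x * P * s' := by ring
    rw [e]
    exact hxs
  · push_cast
    have e : y * (P * (s' : ℝ)) = y * P * s' := by ring
    rw [e]
    exact hys

theorem core' (hCls : TaskCls) (hVal : TaskVal) (hLoc : TaskLoc) (hEmb : TaskEmb) (hMu : TaskMu)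
    (hRed : TaskRed) (hWeil : TaskWeil) (hRoot : TaskRoot) (hSt : TaskSt) (hIrr : TaskIrr)
    (hDisc : TaskDisc) (hPl : TaskPl) {n k : ℕ} (hn : 2 ≤ n) (hk : 1 ≤ k) (D : Dat n k)
    (m N : ℕ) (hm : 2 ≤ m) (x y : ℝ) (hx : 1 ≤ x) (hxy : x < y) (P W : ℤ) (hP : 0 < P) (hW0 : 0 < W)
    (hPZ : IsCoprime P (D.c * |D.bad|)) (hWZ : IsCoprime W (D.c * |D.bad|)) (hPW : IsCoprime P W) :
    ∃ (s t : ℤ) (K : Type) (_ : Field K) (_ : NumberField K), 0 < s ∧ x * s < t ∧
      (t : ℝ) < y * s ∧ Module.finrank ℚ K = n ∧ (N : ℤ) < |discr K| ∧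
      InfinitePlace.nrRealPlaces K =
        {X : ℝ | ∏ i, (X - (D.a i : ℝ)) = - ((s : ℝ) ^ m * D.c / ((t : ℝ) ^ m - (s : ℝ) ^ m))}.ncard ∧
      (∀ R, R + Units.rank K ≤ n + k - 1 →
        ∃ f : Multiplicative (Fin R → ZMod m) →* ClassGroup (𝓞 K), Function.Injective f) ∧
      (∀ (q : ℕ) [Fact q.Prime], (q : ℤ) ∣ P → ∃ φ : Fin n → (K →+* ℚ_[q]), Function.Injective φ) ∧
      ∀ q : ℕ, q.Prime → (∃ w : ℤ, W = q * w ∧ ¬ (q : ℤ) ∣ w) → ¬ q ∣ m →
        ∃ v : HeightOneSpectrum (𝓞 K), v.asIdeal ^ n = Ideal.span {((q : ℕ) : 𝓞 K)} := by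
  obtain ⟨q₀, q₁, B, s₀, t₀, hB, hBP, hcop, hgood⟩ :=
    exists_good' hWeil hRoot D m N (by omega) hk hm P W hP hW0 hPZ hWZ hPW
  obtain ⟨s, t, hs, ht, hPs, hPt, hs0, hst, hxs, hys⟩ := exists_st hSt hB hP hBP hcop (t₀ := t₀) hx hxy
  obtain ⟨hG, hWs, hWt⟩ := hgood s t hs ht
  have hsR : (0 : ℝ) < s := by exact_mod_cast hs0
  have hslt : s < t := by
    have h1 : (s : ℝ) < t := by nlinarith
    exact_mod_cast h1
  obtain ⟨L, hL0, hLc, hcopL, hqL, hqL2, hqs, hsb, htb⟩ := good_arith hG hm hs0 hslt hst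
  have hirr := hIrr n D.a L (s ^ m) q₀ (by omega) hG.hq₀ hqL hqL2 hqs hcopL
  obtain ⟨K, hK1, hK2, θ, hfr, hθ, hgen⟩ := exists_field _ hirr
  rw [natDegree_F (by omega) D.a L _ hL0.ne'] at hfr
  have hθ' := hθ
  rw [eval_F] at hθ'
  have hF : Fld D m s t L K θ := ⟨hLc, by push_cast at hθ'; exact hθ', hgen⟩
  have htn : t ≠ 0 := (hs0.trans hslt).ne'
  have hpt := ne_pt hF hs0.ne' htn
  refine ⟨s, t, K, hK1, hK2, hs0, hxs, hys, hfr, ?_, ?_, ?_, ?_, ?_⟩
  · have h1 := hDisc K n D.a L (s ^ m) q₀ θ hn hfr hG.hq₀ hqL hqL2 hqs hθ' hgen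
    have h2 : (q₀ : ℤ) ≤ |discr K| := Int.le_of_dvd (abs_pos.2 (discr_ne_zero K))
      ((dvd_abs _ _).2 h1)
    have h3 : (N : ℤ) < q₀ := by exact_mod_cast hG.hN
    linarith
  · rw [hPl K _ θ hirr hθ hgen]
    congr 1
    ext X
    simp only [Set.mem_ofPred_eq]
    rw [eval_F]
    have hL0' : (L : ℝ) ≠ 0 := by exact_mod_cast hL0.ne'
    have hc0 : (D.c : ℝ) ≠ 0 := by exact_mod_cast D.hc.ne'
    have h1 : (t : ℝ) ^ m - (s : ℝ) ^ m = L * D.c := by
      have : ((L * D.c : ℤ) : ℝ) = ((t ^ m - s ^ m : ℤ) : ℝ) := by rw [hLc]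
      push_cast at this
      exact this.symm
    rw [h1]
    push_cast
    constructor
    · intro h
      field_simp
      linear_combination h
    · intro h
      rw [h]
      field_simp
      ring
  · intro R hR
    obtain ⟨N', hN'⟩ : ∃ N', n + k = N' + 1 := ⟨n + k - 1, by omega⟩
    let σ : Fin (N' + 1) ≃ Fin n ⊕ Fin k := (finCongr hN'.symm).trans finSumFinEquiv.symm
    refine hCls K N' m R hm (by omega) (elt D σ θ hpt) ?_ ?_ ?_
    · intro i
      refine hVal K m _ (by omega) fun v => ?_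
      exact hLoc n k D m s t L K θ (by omega) (by omega) hL0.ne' hs0.ne' htn hF hst hsb htb _ _ v
    · intro ℓ hℓ hℓm
      exact indep_of_tests hEmb hRed hfr (by omega) hL0.ne' hF hpt σ ℓ hℓ (hG.tests ℓ hℓ hℓm)
    · intro ℓ hℓ hℓm
      have hx1 : Tst D m q₁ s t (D.b ⟨0, hk⟩) := by
        have hp : Prime (q₁ : ℤ) := Nat.prime_iff_prime_int.1 hG.hq₁
        refine ⟨hG.hq₁, hG.hc₁, ?_, ?_, ?_⟩
        · rw [D.hab, sub_self, mul_zero, sub_zero]
          exact Dvd.dvd.mul_right (dvd_pow hG.ht₁ (by omega)) _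
        · intro h
          have h1 : (q₁ : ℤ) ∣ s ^ m := by
            have := (dvd_pow hG.ht₁ (show m ≠ 0 by omega)).sub h
            simpa using this
          have h2 := hp.dvd_of_dvd_pow h1
          have h3 : (q₁ : ℤ) ∣ 1 := by
            have := h2.sub hG.hs₁
            simpa using this
          exact hp.not_isUnit (isUnit_of_dvd_one h3)
        · intro h
          exact hG.hbad (h.trans (dvd_bad D (Sum.inr ⟨0, hk⟩)))
      have hle : ℓ ≤ m := Nat.le_of_dvd (by omega) hℓm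
      have hq1 : q₁ - 1 + 2 = q₁ + 1 := by have := hG.hq4; omega
      refine ⟨fun hℓ2 => ?_, fun hℓ2 => ?_⟩
      · refine no_zeta hEmb hMu hfr (by omega) hL0.ne' hF hG.hq₁ hx1 ?_ ?_
        · intro h
          have := Nat.le_of_dvd hℓ.pos h
          have := hG.hqm'
          omega
        · intro h
          have h1 : ℓ ∣ q₁ + 1 := (hℓm.trans (Dvd.intro_left _ rfl)).trans hG.hqm
          rw [← hq1] at h1
          have h2 : ℓ ∣ 2 := (Nat.dvd_add_right h).1 h1
          exact hℓ2 ((Nat.prime_dvd_prime_iff_eq hℓ Nat.prime_two).1 h2)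
      · refine no_zeta hEmb hMu hfr (by omega) hL0.ne' hF hG.hq₁ hx1 ?_ ?_
        · intro h
          have := Nat.le_of_dvd (by norm_num) h
          have := hG.hq4
          omega
        · intro h
          have h1 : 4 ∣ q₁ + 1 := (Dvd.intro _ rfl).trans hG.hqm
          rw [← hq1] at h1
          have h2 : 4 ∣ 2 := (Nat.dvd_add_right h).1 h1
          norm_num at h2
  · -- the primes dividing `P` split completely
    intro q hqf hqP
    have hq : q.Prime := hqf.out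
    have hp : Prime (q : ℤ) := Nat.prime_iff_prime_int.1 hq
    have hqc : ¬ (q : ℤ) ∣ D.c := fun h => hp.not_isUnit
      (hPZ.isUnit_of_dvd' hqP (h.trans (Dvd.intro _ rfl)))
    have hqbad : ¬ (q : ℤ) ∣ D.bad := fun h => hp.not_isUnit
      (hPZ.isUnit_of_dvd' hqP (((dvd_abs _ _).2 h).trans (Dvd.intro_left _ rfl)))
    have hqt : (q : ℤ) ∣ t - 1 := hqP.trans hPt
    have hqs : (q : ℤ) ∣ s := hqP.trans hPs
    have htst : ∀ i, Tst D m q s t (D.a i) := by
      intro i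
      have h0 : (pA D.a).eval (D.a i) = 0 := by
        rw [eval_pA]
        exact Finset.prod_eq_zero (Finset.mem_univ i) (sub_self _)
      refine ⟨hq, hqc, ?_, ?_, ?_⟩
      · rw [h0, mul_zero, zero_sub, zero_sub, mul_neg, neg_neg]
        exact Dvd.dvd.mul_right (dvd_pow hqs (by omega)) _
      · intro h
        have h1 : (q : ℤ) ∣ t ^ m := by
          have := h.add (dvd_pow hqs (show m ≠ 0 by omega))
          simpa using this
        have h2 := hp.dvd_of_dvd_pow h1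
        have h3 : (q : ℤ) ∣ 1 := by
          have := h2.sub hqt
          simpa using this
        exact hp.not_isUnit (isUnit_of_dvd_one h3)
      · intro h
        exact hqbad (h.trans (dvd_bad D (Sum.inl i)))
    have hemb : ∀ i, ∃ (φ : K →+* ℚ_[q]) (z : ℤ_[q]), φ θ = (z : ℚ_[q]) ∧
        PadicInt.toZMod z = ((D.a i : ℤ) : ZMod q) := fun i =>
      hEmb n k D m s t L K θ q (D.a i) hfr (by omega) hL0.ne' hF (htst i)
    choose φ z hφ hz using hemb
    refine ⟨φ, fun i j hij => ?_⟩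
    by_contra hne
    have h1 : (z i : ℚ_[q]) = (z j : ℚ_[q]) := by rw [← hφ i, ← hφ j, hij]
    have h2 : z i = z j := PadicInt.ext h1
    have h3 : ((D.a i : ℤ) : ZMod q) = ((D.a j : ℤ) : ZMod q) := by rw [← hz i, ← hz j, h2]
    have h4 : (q : ℤ) ∣ D.a i - D.a j := by
      rw [← zmod_iff]
      push_cast
      exact sub_eq_zero.2 h3
    exact hqbad ((h4.trans (sub_dvd_der D.a hne)).trans (dvd_bad D (Sum.inl i)))
  · -- the primes dividing `W` exactly once are totally ramified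
    intro q hq ⟨w, hWw, hqw⟩ hqm
    have hp : Prime (q : ℤ) := Nat.prime_iff_prime_int.1 hq
    have hqW : (q : ℤ) ∣ W := by rw [hWw]; exact Dvd.intro _ rfl
    have hqc : ¬ (q : ℤ) ∣ D.c := fun h => hp.not_isUnit
      (hWZ.isUnit_of_dvd' hqW (h.trans (Dvd.intro _ rfl)))
    have hqW2 : (q : ℤ) ∣ W ^ 2 := dvd_pow hqW two_ne_zero
    have hqs1 : (q : ℤ) ∣ s - 1 := hqW2.trans hWs
    obtain ⟨w', hw'⟩ : W ^ 2 ∣ t - s - W := by
      have := hWt.sub hWs
      have e : t - s - W = t - (1 + W) - (s - 1) := by ring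
      rw [e]; exact this
    have hts : t - s = q * (w * (1 + W * w')) := by
      have : t - s = W * (1 + W * w') := by linear_combination hw'
      rw [this]
      nth_rewrite 1 [hWw]
      ring
    have hex := exact_power' hq hqm hqs1 hts (by
      intro h
      rcases hp.dvd_or_dvd h with h | h
      · exact hqw h
      · have h2 : (q : ℤ) ∣ 1 := by
          have := h.sub (hqW.mul_right w')
          simpa using this
        exact hp.not_isUnit (isUnit_of_dvd_one h2))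
    refine tot_ram hfr D.a L (s ^ m) hq ?_ ?_ ?_ hθ'
    · have h1 := hex.1
      rw [← hLc] at h1
      exact (hp.dvd_or_dvd h1).resolve_right hqc
    · intro h
      exact hex.2 (by rw [← hLc]; exact Dvd.dvd.mul_right h _)
    · intro h
      have h1 := hp.dvd_of_dvd_pow h
      have h2 : (q : ℤ) ∣ 1 := by
        have := h1.sub hqs1
        simpa using this
      exact hp.not_isUnit (isUnit_of_dvd_one h2)

end Pool.Agent.Q84.CGL
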