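import Pool.Agent.Q84.CGL.L2
import Pool.Agent.Q85.SG.ToDat

/-!
# Class groups of large rank in all signatures, with local conditions
-/

set_option autoImplicit false

namespace Pool.Agent.Q84.CGL

open Polynomial Finset NumberField IsDedekindDomain
open Pool.Agent.W289.CG

/-- the configurations for all signatures -/
theorem exists_dat (n r : ℕ) (hn : 4 ≤ n) (hr : 2 * r ≤ n) : ∃ (D : Dat n 3) (v₁ v₂ : ℝ), 0 < v₁ ∧ v₁ < v₂ ∧
    ∀ w : ℝ, v₁ < w → w < v₂ → {x : ℝ | ∏ i, (x - (D.a i : ℝ)) = -w}.ncard = n - 2 * r := by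
  by_cases h1 : r = n / 2
  · obtain ⟨D⟩ := dat3 n hn
    obtain ⟨B, hB⟩ := Pool.Agent.W240.CG.real1 n D.a (by omega) D.ha
    refine ⟨D, |B| + 1, |B| + 2, by positivity, by linarith, fun w hw1 _ => ?_⟩
    rw [hB w (by linarith [le_abs_self B]), h1]
    omega
  · rcases Nat.even_or_odd' n with ⟨k, hk | hk⟩
    · obtain ⟨h, rfl⟩ : ∃ h, k = h + 2 := ⟨k - 2, by omega⟩
      have hn' : n = 4 + 2 * h := by omega
      by_cases h2 : r = h + 1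
      · have hG := Pool.Agent.Q85.SG.conf2 h
        rw [← hn'] at hG
        have : n - 2 * r = 2 := by omega
        rw [← this] at hG
        exact Pool.Agent.Q85.SG.good_dat hG
      · have hG := Pool.Agent.Q85.SG.conf1 h r (by omega)
        rw [← hn'] at hG
        have : n - 2 * r = 4 + 2 * (h - r) := by omega
        rw [← this] at hG
        exact Pool.Agent.Q85.SG.good_dat hG
    · obtain ⟨h, rfl⟩ : ∃ h, k = h + 1 := ⟨k - 1, by omega⟩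
      have hn' : n = 3 + 2 * h := by omega
      have hG := Pool.Agent.Q85.SG.conf0 h r (by omega) (by omega)
      rw [← hn'] at hG
      have : n - 2 * r = 3 + 2 * (h - r) := by omega
      rw [← this] at hG
      exact Pool.Agent.Q85.SG.good_dat hG

/-- the product of a set of primes is prime to `Z`, if none divides `Z` -/
theorem prod_coprime (T : Finset ℕ) (hT : ∀ p ∈ T, p.Prime) (Z : ℤ) (hZ : ∀ p ∈ T, ¬ (p : ℤ) ∣ Z) :
    IsCoprime (∏ p ∈ T, (p : ℤ)) Z :=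
  IsCoprime.prod_left fun p hp => not_dvd_coprime (hT p hp) (hZ p hp)

theorem main (n r : ℕ) (hn : 4 ≤ n) (hr : 2 * r ≤ n) : ∃ E : Finset ℕ, ∀ m : ℕ, 2 ≤ m →
    ∀ T₁ T₂ : Finset ℕ, (∀ p ∈ T₁, p.Prime ∧ p ∉ E) → (∀ p ∈ T₂, p.Prime ∧ p ∉ E ∧ ¬ p ∣ m) → Disjoint T₁ T₂ →
    ∀ N : ℕ, ∃ (K : Type) (_ : Field K) (_ : NumberField K), Module.finrank ℚ K = n ∧
      InfinitePlace.nrComplexPlaces K = r ∧ (N : ℤ) < |discr K| ∧
      (∀ (p : ℕ) [Fact p.Prime], p ∈ T₁ → ∃ φ : Fin n → (K →+* ℚ_[p]), Function.Injective φ) ∧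
      (∀ p ∈ T₂, ∃ v : HeightOneSpectrum (𝓞 K), v.asIdeal ^ n = Ideal.span {((p : ℕ) : 𝓞 K)}) ∧
      ∃ f : Multiplicative (Fin (r + 3) → ZMod m) →* ClassGroup (𝓞 K), Function.Injective f := by
  obtain ⟨D, v₁, v₂, hv1, hv2, hN⟩ := exists_dat n r hn hr
  have hZ0 : 0 < D.c * |D.bad| := mul_pos D.hc (abs_pos.2 (bad_ne D))
  refine ⟨(D.c * |D.bad|).natAbs.primeFactors, fun m hm T₁ T₂ hT₁ hT₂ hTT N => ?_⟩
  have hE : ∀ p : ℕ, p.Prime → p ∉ (D.c * |D.bad|).natAbs.primeFactors → ¬ (p : ℤ) ∣ D.c * |D.bad| := by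
    intro p hp hpE hd
    refine hpE (Nat.mem_primeFactors.2 ⟨hp, Int.natCast_dvd.1 hd, Int.natAbs_ne_zero.2 hZ0.ne'⟩)
  have hPZ := prod_coprime T₁ (fun p hp => (hT₁ p hp).1) _ fun p hp => hE p (hT₁ p hp).1 (hT₁ p hp).2
  have hWZ := prod_coprime T₂ (fun p hp => (hT₂ p hp).1) _ fun p hp => hE p (hT₂ p hp).1 (hT₂ p hp).2.1
  have hndvd : ∀ p q : ℕ, p.Prime → q.Prime → p ≠ q → ¬ (p : ℤ) ∣ (q : ℤ) := by
    intro p q hp hq hpq h
    exact hpq ((Nat.prime_dvd_prime_iff_eq hp hq).1 (by exact_mod_cast h))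
  have hprod : ∀ (T : Finset ℕ) (p : ℕ), p.Prime → (∀ q ∈ T, q.Prime) → p ∉ T → ¬ (p : ℤ) ∣ ∏ q ∈ T, (q : ℤ) := by
    intro T p hp hT hpT h
    rw [Prime.dvd_finsetProd_iff (Nat.prime_iff_prime_int.1 hp)] at h
    obtain ⟨q, hq, hpq⟩ := h
    exact hndvd p q hp (hT q hq) (fun e => hpT (e ▸ hq)) hpq
  have hPW := prod_coprime T₁ (fun p hp => (hT₁ p hp).1) (∏ q ∈ T₂, (q : ℤ)) fun p hp =>
    hprod T₂ p (hT₁ p hp).1 (fun q hq => (hT₂ q hq).1) (Finset.disjoint_left.1 hTT hp)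
  have hP0 : (0 : ℤ) < ∏ p ∈ T₁, (p : ℤ) := Finset.prod_pos fun p hp => by exact_mod_cast (hT₁ p hp).1.pos
  have hW0 : (0 : ℤ) < ∏ p ∈ T₂, (p : ℤ) := Finset.prod_pos fun p hp => by exact_mod_cast (hT₂ p hp).1.pos
  have hv2' : 0 < v₂ := hv1.trans hv2
  have hc : (0 : ℝ) < D.c := by exact_mod_cast D.hc
  have hm0 : m ≠ 0 := by omega
  obtain ⟨x, hx⟩ : ∃ x : ℝ, x = (1 + D.c / v₂) ^ ((m : ℝ)⁻¹) := ⟨_, rfl⟩
  obtain ⟨y, hy⟩ : ∃ y : ℝ, y = (1 + D.c / v₁) ^ ((m : ℝ)⁻¹) := ⟨_, rfl⟩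
  have hb1 : 1 < 1 + D.c / v₂ := by
    have : 0 < D.c / v₂ := by positivity
    linarith
  have hb2 : 1 + D.c / v₂ < 1 + D.c / v₁ := by
    have := div_lt_div_of_pos_left hc hv1 hv2
    linarith
  have hminv : (0 : ℝ) < (m : ℝ)⁻¹ := by
    have : (0 : ℝ) < m := by exact_mod_cast (by omega : 0 < m)
    positivity
  have hxm : x ^ m = 1 + D.c / v₂ := by rw [hx]; exact Real.rpow_inv_natCast_pow (by linarith) hm0
  have hym : y ^ m = 1 + D.c / v₁ := by rw [hy]; exact Real.rpow_inv_natCast_pow (by linarith) hm0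
  have hx1 : 1 ≤ x := by rw [hx]; exact Real.one_le_rpow hb1.le hminv.le
  have hxy : x < y := by rw [hx, hy]; exact Real.rpow_lt_rpow (by linarith) hb2 hminv
  obtain ⟨s, t, K, hK1, hK2, hs, hxs, hys, hfr, hdisc, hreal, hcl, hsplit, hram⟩ := core'
    (Pool.Agent.W930.CG.cls Pool.Agent.W240.CG.grp Pool.Agent.W125.CG.uni) Pool.Agent.W64.CG.val
    Pool.Agent.W405.CG.loc Pool.Agent.W290.CG.emb Pool.Agent.W349.CG.mu
    Pool.Agent.W349.CG.red Pool.Agent.W349.CG.WeilT.main Pool.Agent.W505.CG.root Pool.Agent.W505.CG.st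
    Pool.Agent.W505.CG.irr Pool.Agent.W505.CG.disc Pool.Agent.W240.CG.pl
    (by omega : 2 ≤ n) (by norm_num : 1 ≤ 3) D m N hm x y hx1 hxy _ _ hP0 hW0 hPZ hWZ hPW
  have hsR : (0 : ℝ) < s := by exact_mod_cast hs
  have hsm : 0 < (s : ℝ) ^ m := by positivity
  have h1 : (1 + D.c / v₂) * (s : ℝ) ^ m < (t : ℝ) ^ m := by
    rw [← hxm, ← mul_pow]
    exact pow_lt_pow_left₀ hxs (by positivity) hm0
  have h2 : (t : ℝ) ^ m < (1 + D.c / v₁) * (s : ℝ) ^ m := by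
    rw [← hym, ← mul_pow]
    refine pow_lt_pow_left₀ hys ?_ hm0
    have : 0 < x * s := by positivity
    linarith
  have h3 : 0 < (t : ℝ) ^ m - (s : ℝ) ^ m := by
    have : 0 < D.c / v₂ * (s : ℝ) ^ m := by positivity
    nlinarith
  have hw1 : v₁ < (s : ℝ) ^ m * D.c / ((t : ℝ) ^ m - (s : ℝ) ^ m) := by
    rw [lt_div_iff₀ h3]
    have h4 : v₁ * ((1 + D.c / v₁) * (s : ℝ) ^ m) = v₁ * (s : ℝ) ^ m + (s : ℝ) ^ m * D.c := by
      field_simp
    have h5 := mul_lt_mul_of_pos_left h2 hv1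
    rw [h4] at h5
    linarith
  have hw2 : (s : ℝ) ^ m * D.c / ((t : ℝ) ^ m - (s : ℝ) ^ m) < v₂ := by
    rw [div_lt_iff₀ h3]
    have h4 : v₂ * ((1 + D.c / v₂) * (s : ℝ) ^ m) = v₂ * (s : ℝ) ^ m + (s : ℝ) ^ m * D.c := by
      field_simp
    have h5 := mul_lt_mul_of_pos_left h1 hv2'
    rw [h4] at h5
    linarith
  rw [hN _ hw1 hw2] at hreal
  have h8 := InfinitePlace.card_add_two_mul_card_eq_rank K
  have h7 := rank_eq K
  have hcomp : InfinitePlace.nrComplexPlaces K = r := by omega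
  refine ⟨K, hK1, hK2, hfr, hcomp, hdisc, ?_, ?_, ?_⟩
  · intro p hpf hp
    exact hsplit p (Finset.dvd_prod_of_mem (fun q : ℕ => (q : ℤ)) hp)
  · intro p hp
    refine hram p (hT₂ p hp).1 ⟨∏ q ∈ T₂.erase p, (q : ℤ), (Finset.mul_prod_erase T₂ (fun q : ℕ => (q : ℤ)) hp).symm, ?_⟩
      (hT₂ p hp).2.2
    exact hprod _ p (hT₂ p hp).1 (fun q hq => (hT₂ q (Finset.mem_of_mem_erase hq)).1) (Finset.notMem_erase p T₂)
  · apply hcl
    omega

end Pool.Agent.Q84.CGL
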